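import Pool.Agent.Lib.MP_701827_al.Tower

set_option autoImplicit false

namespace Pool.Agent.Lib.MP_701827_al

open HahnSeries

section Powers

variable {Γ R : Type} [AddCommGroup Γ] [LinearOrder Γ] [IsOrderedAddMonoid Γ] [Ring R]

theorem pow_finite (x : HahnSeries Γ R) (hx : 0 < x.orderTop) (g : Γ) :
    Set.Finite {a | ((fun n ↦ x ^ n) a).coeff g ≠ 0} := by
  have hpwo : Set.IsPWO (⋃ n, support (x ^ n)) :=
    SummableFamily.isPWO_iUnion_support_powers (zero_le_orderTop_iff.mp <| le_of_lt hx)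
  by_cases h0 : x = 0
  · exact h0 ▸ Set.Finite.subset (Set.finite_singleton 0) (SummableFamily.co_support_zero g)
  by_cases hg : g ∈ ⋃ n : ℕ, { g | (x ^ n).coeff g ≠ 0 }
  swap; · exact Set.finite_empty.subset fun n hn => hg (Set.mem_iUnion.2 ⟨n, hn⟩)
  apply hpwo.isWF.induction hg
  intro y ys hy
  refine ((((Finset.antidiagonal x.isPWO_support hpwo y).finite_toSet.biUnion
    fun ij hij => hy ij.snd (Finset.mem_antidiagonal.1 (Finset.mem_coe.1 hij)).2.1 ?_).image Nat.succ).union
      (Set.finite_singleton 0)).subset ?_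
  · obtain ⟨hi, _, rfl⟩ := Finset.mem_antidiagonal.1 (Finset.mem_coe.1 hij)
    exact lt_add_of_pos_left ij.2 <| lt_of_lt_of_le ((zero_lt_orderTop_iff h0).mp hx) <|
      order_le_of_coeff_ne_zero <| Function.mem_support.mp hi
  · rintro (_ | n) hn
    · exact Set.mem_union_right _ (Set.mem_singleton 0)
    · obtain ⟨i, hi, j, hj, rfl⟩ := support_mul_subset hn
      refine Set.mem_union_left _ ⟨n, Set.mem_iUnion.2 ⟨⟨j, i⟩, Set.mem_iUnion.2 ⟨?_, hi⟩⟩, rfl⟩
      simp only [Finset.mem_coe, Finset.mem_antidiagonal, mem_support, ne_eq, Set.mem_iUnion]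
      exact ⟨hj, ⟨n, hi⟩, add_comm j i⟩

/-- The family of powers of a series of positive order. -/
noncomputable def pw (x : HahnSeries Γ R) (hx : 0 < x.orderTop) : SummableFamily Γ R ℕ where
  toFun n := x ^ n
  isPWO_iUnion_support' :=
    SummableFamily.isPWO_iUnion_support_powers (zero_le_orderTop_iff.mp <| le_of_lt hx)
  finite_co_support' g := pow_finite x hx g

theorem pw_apply (x : HahnSeries Γ R) (hx : 0 < x.orderTop) (n : ℕ) : pw x hx n = x ^ n := rfl

theorem embDomain_pw (x : HahnSeries Γ R) (hx : 0 < x.orderTop) :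
    (x • pw x hx).embDomain ⟨Nat.succ, Nat.succ_injective⟩ =
      pw x hx - SummableFamily.ofFinsupp (Finsupp.single 0 1) := by
  apply SummableFamily.ext
  rintro (_ | n)
  · rw [SummableFamily.embDomain_of_notMem_range]
    · rw [SummableFamily.sub_apply, pw_apply]
      simp
    · simp
  · rw [SummableFamily.embDomain_apply]
    simp [of_symm_smul_of_eq_mul, pw_apply, pow_succ',
      -smul_eq_mul]

theorem one_sub_mul_hsum (x : HahnSeries Γ R) (hx : 0 < x.orderTop) :
    (1 - x) * (pw x hx).hsum = 1 := by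
  rw [← SummableFamily.hsum_smul, sub_smul 1 x (pw x hx), one_smul, SummableFamily.hsum_sub, ←
    SummableFamily.hsum_embDomain (x • pw x hx) ⟨Nat.succ, Nat.succ_injective⟩, embDomain_pw x hx]
  simp

end Powers

/-- Exponents, ordered lexicographically. -/
abbrev G : Type := Lex (ℕ →₀ ℤ)

/-- The bilinear form `sum_m γ(2m) δ(2m+1)`. -/
noncomputable def B : (ℕ →₀ ℤ) →+ (ℕ →₀ ℤ) →+ ℤ :=
  Finsupp.liftAddHom (fun k => zmultiplesHom ((ℕ →₀ ℤ) →+ ℤ)
    (if Even k then Finsupp.applyAddHom (k + 1) else 0))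

theorem B_single (k : ℕ) (a : ℤ) (δ : ℕ →₀ ℤ) :
    B (Finsupp.single k a) δ = if Even k then a * δ (k + 1) else 0 := by
  unfold B
  rw [Finsupp.liftAddHom_apply_single]
  by_cases h : Even k
  · simp [h]
  · simp [h]

theorem B_eq_zero (γ δ : ℕ →₀ ℤ) (h : ∀ k, Even k → γ k * δ (k + 1) = 0) : B γ δ = 0 := by
  unfold B
  rw [Finsupp.liftAddHom_apply, Finsupp.sum, AddMonoidHom.finsetSum_apply]
  apply Finset.sum_eq_zero
  intro k _
  by_cases hk : Even k
  · simpa [hk] using h k hk
  · simp [hk]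

/-- The sign cocycle. -/
noncomputable def c (γ δ : G) : ℤ := sg (B (ofLex γ) (ofLex δ))

theorem c_add_left (γ γ' δ : G) : c (γ + γ') δ = c γ δ * c γ' δ := by
  unfold c
  rw [ofLex_add, map_add, AddMonoidHom.add_apply, sg_add]

theorem c_add_right (γ δ δ' : G) : c γ (δ + δ') = c γ δ * c γ δ' := by
  unfold c
  rw [ofLex_add, map_add, sg_add]

theorem c_zero_left (δ : G) : c 0 δ = 1 := by
  unfold c
  rw [ofLex_zero, map_zero, AddMonoidHom.zero_apply, sg_zero]

theorem c_zero_right (γ : G) : c γ 0 = 1 := by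
  unfold c
  rw [ofLex_zero, map_zero, sg_zero]

theorem c_ne_zero (γ δ : G) : (c γ δ : ℚ) ≠ 0 := by
  have h : c γ δ * c γ δ = 1 := sg_sq _
  intro h0
  have h1 : ((c γ δ * c γ δ : ℤ) : ℚ) = 1 := by rw [h]; simp
  push_cast at h1
  rw [h0] at h1
  norm_num at h1

/-- The coefficient ring. -/
abbrev M : Type := Module.End ℚ (G → ℚ)

/-- Twisted translations. -/
noncomputable def w (γ : G) : M where
  toFun φ := fun δ => (c γ δ : ℚ) * φ (γ + δ)
  map_add' φ ψ := by
    funext δ
    simp only [Pi.add_apply]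
    ring
  map_smul' a φ := by
    funext δ
    simp only [Pi.smul_apply, smul_eq_mul, RingHom.id_apply]
    ring

theorem w_apply (γ : G) (φ : G → ℚ) (δ : G) : w γ φ δ = (c γ δ : ℚ) * φ (γ + δ) := rfl

theorem w_mul (γ γ' : G) : w γ * w γ' = (c γ' γ : ℚ) • w (γ + γ') := by
  apply LinearMap.ext
  intro φ
  funext δ
  rw [Module.End.mul_apply, LinearMap.smul_apply, Pi.smul_apply, w_apply, w_apply, w_apply,
    c_add_right, c_add_left, smul_eq_mul]
  have e : γ' + (γ + δ) = γ + γ' + δ := by abel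
  rw [e]
  push_cast
  ring

theorem w_mul' (γ γ' : G) : w γ * w γ' = c γ' γ • w (γ + γ') := by
  rw [w_mul]
  apply LinearMap.ext
  intro φ
  funext δ
  rw [LinearMap.smul_apply, LinearMap.smul_apply, Pi.smul_apply, Pi.smul_apply, smul_eq_mul,
    zsmul_eq_mul]

theorem w_zero : w 0 = 1 := by
  apply LinearMap.ext
  intro φ
  funext δ
  rw [w_apply, c_zero_left, zero_add]
  simp

/-- Evaluation functional extracting the scalar. -/
noncomputable def lam : M →ₗ[ℚ] ℚ where
  toFun m := m (fun _ => 1) 0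
  map_add' m m' := by simp
  map_smul' a m := by simp

theorem lam_w (γ : G) : lam (w γ) = 1 := by
  change w γ (fun _ => 1) 0 = 1
  rw [w_apply, c_zero_right]
  simp

instance : Nontrivial M := ⟨⟨w 0, 0, fun h => by
  have := congrArg lam h
  rw [lam_w, map_zero] at this
  exact one_ne_zero this⟩⟩

/-- The line spanned by `w γ`. -/
noncomputable def line (γ : G) : Submodule ℚ M := Submodule.span ℚ {w γ}

theorem mem_line {γ : G} {m : M} : m ∈ line γ ↔ ∃ a : ℚ, a • w γ = m :=
  Submodule.mem_span_singleton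

theorem line_mul {γ γ' : G} {m m' : M} (h : m ∈ line γ) (h' : m' ∈ line γ') :
    m * m' ∈ line (γ + γ') := by
  obtain ⟨a, rfl⟩ := mem_line.mp h
  obtain ⟨b, rfl⟩ := mem_line.mp h'
  rw [smul_mul_assoc, mul_smul_comm, w_mul]
  exact Submodule.smul_mem _ _ (Submodule.smul_mem _ _ (Submodule.smul_mem _ _
    (Submodule.mem_span_singleton_self _)))

/-- Exponents involving only the first `n` pairs of variables. -/
def Gn (n : ℕ) : AddSubgroup G where
  carrier := {γ | ∀ m, 2 * n ≤ m → (ofLex γ) m = 0}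
  zero_mem' := fun m _ => by simp
  add_mem' := fun {a b} ha hb m hm => by
    rw [ofLex_add, Finsupp.add_apply, ha m hm, hb m hm, add_zero]
  neg_mem' := fun {a} ha m hm => by
    rw [ofLex_neg, Finsupp.neg_apply, ha m hm, neg_zero]

theorem mem_Gn {n : ℕ} {γ : G} : γ ∈ Gn n ↔ ∀ m, 2 * n ≤ m → (ofLex γ) m = 0 := Iff.rfl

/-- The division subrings `D_n`. -/
noncomputable def D0 (n : ℕ) : Subring (HahnSeries G M) where
  carrier := {x | ∀ γ, x.coeff γ ∈ line γ ∧ (x.coeff γ ≠ 0 → γ ∈ Gn n)}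
  mul_mem' := fun {x y} hx hy γ => by
    rw [HahnSeries.coeff_mul]
    constructor
    · apply Submodule.sum_mem
      intro ij hij
      rw [Finset.mem_antidiagonal] at hij
      rw [← hij.2.2]
      exact line_mul (hx _).1 (hy _).1
    · intro h
      obtain ⟨ij, hij, hne⟩ := Finset.exists_ne_zero_of_sum_ne_zero h
      rw [Finset.mem_antidiagonal] at hij
      rw [← hij.2.2]
      exact (Gn n).add_mem ((hx _).2 (left_ne_zero_of_mul hne)) ((hy _).2 (right_ne_zero_of_mul hne))
  one_mem' := fun γ => by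
    rw [HahnSeries.coeff_one]
    split_ifs with h
    · subst h
      refine ⟨?_, fun _ => (Gn n).zero_mem⟩
      rw [← w_zero]
      exact Submodule.mem_span_singleton_self _
    · exact ⟨Submodule.zero_mem _, fun h' => absurd rfl h'⟩
  add_mem' := fun {x y} hx hy γ => by
    rw [HahnSeries.coeff_add]
    refine ⟨Submodule.add_mem _ (hx γ).1 (hy γ).1, fun h => ?_⟩
    by_cases h1 : x.coeff γ = 0
    · rw [h1, zero_add] at h
      exact (hy γ).2 h
    · exact (hx γ).2 h1
  zero_mem' := fun γ => by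
    rw [HahnSeries.coeff_zero]
    exact ⟨Submodule.zero_mem _, fun h' => absurd rfl h'⟩
  neg_mem' := fun {x} hx γ => by
    rw [HahnSeries.coeff_neg]
    exact ⟨Submodule.neg_mem _ (hx γ).1, fun h => (hx γ).2 (neg_ne_zero.mp h)⟩

theorem mem_D0 {n : ℕ} {x : HahnSeries G M} :
    x ∈ D0 n ↔ ∀ γ, x.coeff γ ∈ line γ ∧ (x.coeff γ ≠ 0 → γ ∈ Gn n) := Iff.rfl

theorem single_mem {n : ℕ} {γ : G} (hγ : γ ∈ Gn n) {m : M} (hm : m ∈ line γ) :
    HahnSeries.single γ m ∈ D0 n := by
  intro δ
  by_cases h : δ = γ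
  · subst h
    rw [HahnSeries.coeff_single_same]
    exact ⟨hm, fun _ => hγ⟩
  · rw [HahnSeries.coeff_single_of_ne h]
    exact ⟨Submodule.zero_mem _, fun h' => absurd rfl h'⟩

theorem pos_orderTop {y : HahnSeries G M} (h : ∀ γ ≤ 0, y.coeff γ = 0) : 0 < y.orderTop := by
  by_cases hy : y = 0
  · rw [hy, HahnSeries.orderTop_zero]
    exact WithTop.top_pos
  · rw [zero_lt_orderTop_iff hy]
    by_contra hle
    push Not at hle
    exact (HahnSeries.coeff_order_eq_zero.not.mpr hy) (h _ hle)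

theorem hsum_mem {n : ℕ} {y : HahnSeries G M} (hy : y ∈ D0 n) (hpos : 0 < y.orderTop) :
    (pw y hpos).hsum ∈ D0 n := by
  intro γ
  rw [SummableFamily.coeff_hsum_eq_sum]
  constructor
  · apply Submodule.sum_mem
    intro i _
    rw [pw_apply]
    have h := pow_mem hy i
    exact (h γ).1
  · intro h
    obtain ⟨i, _, hi⟩ := Finset.exists_ne_zero_of_sum_ne_zero h
    rw [pw_apply] at hi
    have h := pow_mem hy i
    exact (h γ).2 hi

theorem exists_right_inv {n : ℕ} {x : HahnSeries G M} (hx : x ∈ D0 n) (hx0 : x ≠ 0) :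
    ∃ y ∈ D0 n, x * y = 1 := by
  set g := x.order with hg
  have hne : x.coeff g ≠ 0 := HahnSeries.coeff_order_eq_zero.not.mpr hx0
  obtain ⟨a, ha⟩ := mem_line.mp (hx g).1
  have ha0 : a ≠ 0 := by
    rintro rfl
    rw [zero_smul] at ha
    exact hne ha.symm
  have hgG : g ∈ Gn n := (hx g).2 hne
  set r : M := (a⁻¹ * (c (-g) g : ℚ)⁻¹) • w (-g) with hr
  have hr1 : x.coeff g * r = 1 := by
    rw [← ha, hr, smul_mul_assoc, mul_smul_comm, w_mul, add_neg_cancel, w_zero, smul_smul, smul_smul]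
    have : (a * (a⁻¹ * (c (-g) g : ℚ)⁻¹)) * (c (-g) g : ℚ) = 1 := by
      have h1 := c_ne_zero (-g) g
      field_simp
    rw [this, one_smul]
  have hrm : r ∈ line (-g) := Submodule.smul_mem _ _ (Submodule.mem_span_singleton_self _)
  set m := HahnSeries.single (-g) r with hm
  have hmD : m ∈ D0 n := single_mem ((Gn n).neg_mem hgG) hrm
  set y := 1 - x * m with hy
  have hyD : y ∈ D0 n := (D0 n).sub_mem (D0 n).one_mem ((D0 n).mul_mem hx hmD)
  have hpos : 0 < y.orderTop := by
    apply pos_orderTop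
    intro γ hγ
    have h1 : (x * m).coeff γ = x.coeff (γ + g) * r := by
      have := HahnSeries.coeff_mul_single_add (r := r) (x := x) (a := γ + g) (b := -g)
      rwa [add_neg_cancel_right] at this
    rw [hy, HahnSeries.coeff_sub, h1, HahnSeries.coeff_one]
    split_ifs with h
    · subst h
      rw [zero_add, hr1, sub_self]
    · have hlt : γ + g < g := by
        have : γ < 0 := lt_of_le_of_ne hγ h
        exact add_lt_of_neg_left g this
      rw [HahnSeries.coeff_eq_zero_of_lt_order hlt, zero_mul, sub_zero]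
  refine ⟨m * (pw y hpos).hsum, (D0 n).mul_mem hmD (hsum_mem hyD hpos), ?_⟩
  rw [← mul_assoc]
  have : x * m = 1 - y := by rw [hy]; abel
  rw [this, one_sub_mul_hsum]

theorem D0_mono : Monotone D0 := by
  intro m n hmn x hx γ
  refine ⟨(hx γ).1, fun h k hk => (hx γ).2 h k (by omega)⟩

/-- The union of the `D_n`. -/
noncomputable def KK : Subring (HahnSeries G M) := ⨆ n, D0 n

theorem mem_KK {x : HahnSeries G M} : x ∈ KK ↔ ∃ n, x ∈ D0 n :=
  Subring.mem_iSup_of_directed D0_mono.directed_le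

theorem isUnit_or (x : KK) : IsUnit x ∨ x = 0 := by
  by_cases hx : x = 0
  · exact Or.inr hx
  left
  obtain ⟨n, hn⟩ := mem_KK.mp x.2
  have hx0 : (x : HahnSeries G M) ≠ 0 := fun h => hx (Subtype.ext h)
  obtain ⟨y, hy, hxy⟩ := exists_right_inv hn hx0
  have hy0 : y ≠ 0 := by
    rintro rfl
    rw [mul_zero] at hxy
    exact zero_ne_one hxy
  obtain ⟨z, hz, hyz⟩ := exists_right_inv hy hy0
  have hxz : (x : HahnSeries G M) = z := by
    calc (x : HahnSeries G M) = x * (y * z) := by rw [hyz, mul_one]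
      _ = z := by rw [← mul_assoc, hxy, one_mul]
  have hyx : y * (x : HahnSeries G M) = 1 := by rw [hxz]; exact hyz
  exact ⟨⟨x, ⟨y, mem_KK.mpr ⟨n, hy⟩⟩, Subtype.ext hxy, Subtype.ext hyx⟩, rfl⟩

/-- The division ring. -/
abbrev K : Type := KK

noncomputable instance : DivisionRing K := DivisionRing.ofIsUnitOrEqZero isUnit_or

/-- Exponent of `u_n^i v_n^j`. -/
noncomputable def ex (n : ℕ) (i j : ℤ) : G :=
  toLex (Finsupp.single (2 * n) i + Finsupp.single (2 * n + 1) j)

theorem ex_add (n : ℕ) (i j i' j' : ℤ) : ex n i j + ex n i' j' = ex n (i + i') (j + j') := by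
  unfold ex
  rw [← toLex_add]
  congr 1
  rw [Finsupp.single_add, Finsupp.single_add]
  abel

theorem ex_zero (n : ℕ) : ex n 0 0 = 0 := by
  unfold ex
  simp

theorem c_ex (n : ℕ) (i j i' j' : ℤ) : c (ex n i' j') (ex n i j) = sg (j * i') := by
  unfold c ex
  rw [ofLex_toLex, ofLex_toLex, map_add B, AddMonoidHom.add_apply, B_single, B_single]
  have h1 : Even (2 * n) := even_two_mul n
  have h2 : ¬ Even (2 * n + 1) := by
    rw [Nat.not_even_iff_odd]; exact odd_two_mul_add_one n
  rw [if_pos h1, if_neg h2]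
  simp [mul_comm]

theorem ex_apply_even (n : ℕ) (i j : ℤ) : (ofLex (ex n i j)) (2 * n) = i := by
  unfold ex
  rw [ofLex_toLex, Finsupp.add_apply, Finsupp.single_eq_same, Finsupp.single_eq_of_ne (by omega),
    add_zero]

theorem ex_apply_odd (n : ℕ) (i j : ℤ) : (ofLex (ex n i j)) (2 * n + 1) = j := by
  unfold ex
  rw [ofLex_toLex, Finsupp.add_apply, Finsupp.single_eq_same, Finsupp.single_eq_of_ne (by omega),
    zero_add]

theorem ex_apply_ne (n : ℕ) (i j : ℤ) (m : ℕ) (h1 : m ≠ 2 * n) (h2 : m ≠ 2 * n + 1) :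
    (ofLex (ex n i j)) m = 0 := by
  unfold ex
  rw [ofLex_toLex, Finsupp.add_apply, Finsupp.single_eq_of_ne h1, Finsupp.single_eq_of_ne h2,
    zero_add]

theorem ex_mem (n : ℕ) (i j : ℤ) : ex n i j ∈ Gn (n + 1) := fun m hm =>
  ex_apply_ne n i j m (by omega) (by omega)

theorem c_left_ex (n : ℕ) {γ : G} (hγ : γ ∈ Gn n) (i j : ℤ) : c γ (ex n i j) = 1 := by
  unfold c
  rw [B_eq_zero, sg_zero]
  intro k hk
  by_cases h : k = 2 * n
  · subst h
    rw [hγ (2 * n) le_rfl, zero_mul]
  · rw [ex_apply_ne n i j (k + 1), mul_zero]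
    · obtain ⟨l, rfl⟩ := hk
      omega
    · omega

theorem c_right_ex (n : ℕ) {γ : G} (hγ : γ ∈ Gn n) (i j : ℤ) : c (ex n i j) γ = 1 := by
  unfold c
  rw [B_eq_zero, sg_zero]
  intro k hk
  by_cases h : k = 2 * n
  · subst h
    rw [hγ (2 * n + 1) (by omega), mul_zero]
  · rw [ex_apply_ne n i j k h, zero_mul]
    obtain ⟨l, rfl⟩ := hk
    omega

/-- The monomials in the Hahn series ring. -/
noncomputable def X0 (n : ℕ) (i j : ℤ) : HahnSeries G M :=
  HahnSeries.single (ex n i j) (w (ex n i j))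

theorem X0_mem (n : ℕ) (i j : ℤ) : X0 n i j ∈ D0 (n + 1) :=
  single_mem (ex_mem n i j) (Submodule.mem_span_singleton_self _)

theorem X0_zero (n : ℕ) : X0 n 0 0 = 1 := by
  unfold X0
  rw [ex_zero, w_zero]
  rfl

theorem X0_mul (n : ℕ) (i j i' j' : ℤ) :
    X0 n i j * X0 n i' j' = sg (j * i') • X0 n (i + i') (j + j') := by
  unfold X0
  rw [HahnSeries.single_mul_single, w_mul', ex_add, c_ex]
  ext γ
  by_cases h : γ = ex n (i + i') (j + j')
  · subst h
    rw [HahnSeries.coeff_single_same, HahnSeries.coeff_smul, HahnSeries.coeff_single_same]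
  · rw [HahnSeries.coeff_single_of_ne h, HahnSeries.coeff_smul, HahnSeries.coeff_single_of_ne h,
      smul_zero]

theorem D0_comm (n : ℕ) {x : HahnSeries G M} (hx : x ∈ D0 n) (i j : ℤ) :
    x * X0 n i j = X0 n i j * x := by
  ext1
  funext a
  unfold X0
  have h1 := HahnSeries.coeff_mul_single_add (r := w (ex n i j)) (x := x) (a := a - ex n i j)
    (b := ex n i j)
  have h2 := HahnSeries.coeff_single_mul_add (r := w (ex n i j)) (x := x) (a := a - ex n i j)
    (b := ex n i j)
  rw [sub_add_cancel] at h1 h2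
  rw [h1, h2]
  by_cases h : x.coeff (a - ex n i j) = 0
  · rw [h, zero_mul, mul_zero]
  · have hG := (hx _).2 h
    obtain ⟨t, ht⟩ := mem_line.mp (hx (a - ex n i j)).1
    rw [← ht, smul_mul_assoc, mul_smul_comm, w_mul, w_mul, c_left_ex n hG, c_right_ex n hG,
      add_comm]

/-- The functional condition showing that `1` is not in `I_n`. -/
def Good (n : ℕ) (x : HahnSeries G M) : Prop :=
  ∃ f : ℤ →₀ ℚ, (∀ l, f l = lam (x.coeff (ex n l 0))) ∧
    Finsupp.liftAddHom (fun _ : ℤ => AddMonoidHom.id ℚ) f = 0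

theorem good_add (n : ℕ) {x y : HahnSeries G M} (hx : Good n x) (hy : Good n y) :
    Good n (x + y) := by
  obtain ⟨f, hf, hf'⟩ := hx
  obtain ⟨g, hg, hg'⟩ := hy
  refine ⟨f + g, fun l => ?_, by rw [map_add, hf', hg', add_zero]⟩
  rw [Finsupp.add_apply, hf, hg, HahnSeries.coeff_add, map_add]

theorem good_neg (n : ℕ) {x : HahnSeries G M} (hx : Good n x) : Good n (-x) := by
  obtain ⟨f, hf, hf'⟩ := hx
  refine ⟨-f, fun l => ?_, by rw [map_neg, hf', neg_zero]⟩
  rw [Finsupp.neg_apply, hf, HahnSeries.coeff_neg, map_neg]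

theorem good_zero (n : ℕ) : Good n 0 :=
  ⟨0, fun l => by simp, by simp⟩

theorem not_good_one (n : ℕ) : ¬ Good n 1 := by
  rintro ⟨f, hf, hf'⟩
  have : f = Finsupp.single 0 1 := by
    ext l
    rw [hf, HahnSeries.coeff_one]
    by_cases h : l = 0
    · subst h
      rw [ex_zero, if_pos rfl, Finsupp.single_eq_same, ← w_zero, lam_w]
    · have : ex n l 0 ≠ 0 := by
        intro h0
        apply h
        have h1 := ex_apply_even n l 0
        rw [h0] at h1
        simpa using h1.symm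
      rw [if_neg this, map_zero, Finsupp.single_eq_of_ne h]
  rw [this, Finsupp.liftAddHom_apply_single] at hf'
  simp at hf'

theorem coeff_gen (n : ℕ) {d : HahnSeries G M} (hd : d ∈ D0 n) (i j l : ℤ) :
    lam ((d * X0 n i j).coeff (ex n l 0)) = if l = i ∧ j = 0 then lam (d.coeff 0) else 0 := by
  unfold X0
  have h1 := HahnSeries.coeff_mul_single_add (r := w (ex n i j)) (x := d)
    (a := ex n l 0 - ex n i j) (b := ex n i j)
  rw [sub_add_cancel] at h1
  rw [h1]
  split_ifs with h
  · obtain ⟨rfl, rfl⟩ := h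
    rw [sub_self]
    obtain ⟨t, ht⟩ := mem_line.mp (hd 0).1
    rw [← ht, w_zero, smul_mul_assoc, one_mul, map_smul, map_smul, lam_w, ← w_zero, lam_w]
  · by_cases h0 : d.coeff (ex n l 0 - ex n i j) = 0
    · rw [h0, zero_mul, map_zero]
    · exfalso
      have hG := (hd _).2 h0
      have e1 := hG (2 * n) le_rfl
      have e2 := hG (2 * n + 1) (by omega)
      rw [ofLex_sub, Finsupp.sub_apply, ex_apply_even, ex_apply_even] at e1
      rw [ofLex_sub, Finsupp.sub_apply, ex_apply_odd, ex_apply_odd] at e2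
      apply h
      omega

theorem mul_sub_zsmul (d x y : HahnSeries G M) (k : ℤ) :
    d * (x - k • y) = d * x - k • (d * y) := by
  have h1 : k • y = (k : HahnSeries G M) * y := by
    exact zsmul_eq_mul y k
  have h2 : k • (d * y) = (k : HahnSeries G M) * (d * y) := by
    exact zsmul_eq_mul (d * y) k
  rw [h1, h2]
  have h3 := mul_sub d x (k * y)
  rw [h3, ← mul_assoc, ← mul_assoc, (Int.cast_commute k d).eq]

theorem good_gen (n : ℕ) {d : HahnSeries G M} (hd : d ∈ D0 n) (i j : ℤ) :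
    Good n (d * (X0 n i j - sg j • X0 n (i + 1) j)) := by
  have key : ∀ l, lam ((d * (X0 n i j - sg j • X0 n (i + 1) j)).coeff (ex n l 0))
      = (if l = i ∧ j = 0 then lam (d.coeff 0) else 0)
        - sg j • (if l = i + 1 ∧ j = 0 then lam (d.coeff 0) else 0) := by
    intro l
    rw [mul_sub_zsmul, HahnSeries.coeff_sub, map_sub, coeff_gen n hd]
    congr 1
    rw [← coeff_gen n hd, HahnSeries.coeff_smul, map_zsmul]
  by_cases hj : j = 0
  · subst hj
    refine ⟨Finsupp.single i (lam (d.coeff 0)) - Finsupp.single (i + 1) (lam (d.coeff 0)),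
      fun l => ?_, ?_⟩
    · rw [key, Finsupp.sub_apply, sg_zero, one_smul, Finsupp.single_apply, Finsupp.single_apply]
      simp [eq_comm]
    · rw [map_sub, Finsupp.liftAddHom_apply_single, Finsupp.liftAddHom_apply_single, sub_self]
  · refine ⟨0, fun l => ?_, map_zero _⟩
    rw [key]
    simp [hj]

/-- The subring `D_n` inside `K`. -/
noncomputable def DK (n : ℕ) : Subring K := (D0 n).comap KK.subtype

theorem mem_DK {n : ℕ} {x : K} : x ∈ DK n ↔ (x : HahnSeries G M) ∈ D0 n := Iff.rfl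

/-- The monomials in `K`. -/
noncomputable def XK (n : ℕ) (i j : ℤ) : K := ⟨X0 n i j, mem_KK.mpr ⟨n + 1, X0_mem n i j⟩⟩

theorem good_closure (n : ℕ) {x : K} (hx : x ∈ AddSubgroup.closure
    {x : K | ∃ d ∈ DK n, ∃ i j : ℤ, x = d * (XK n i j - sg j • XK n (i + 1) j)}) :
    Good n (x : HahnSeries G M) := by
  induction hx using AddSubgroup.closure_induction with
  | mem x hx =>
    obtain ⟨d, hd, i, j, rfl⟩ := hx
    exact good_gen n (mem_DK.mp hd) i j
  | zero => exact good_zero n
  | add x y _ _ hx hy => exact good_add n hx hy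
  | neg x _ hx => exact good_neg n hx

/-- The tower. -/
noncomputable def tower : Tower K where
  D := DK
  mono := fun m n hmn x hx => D0_mono hmn hx
  inv_mem := fun n x hx => by
    by_cases h : x = 0
    · rw [h, inv_zero]; exact (DK n).zero_mem
    · have hx0 : (x : HahnSeries G M) ≠ 0 := fun h' => h (Subtype.ext h')
      obtain ⟨y, hy, hxy⟩ := exists_right_inv (mem_DK.mp hx) hx0
      have e : x * (⟨y, mem_KK.mpr ⟨n, hy⟩⟩ : K) = 1 := Subtype.ext hxy
      rw [← eq_inv_of_mul_eq_one_right e]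
      exact hy
  exhaust := fun x => mem_KK.mp x.2
  X := XK
  X_mem := fun n i j => X0_mem n i j
  X_zero := fun n => Subtype.ext (X0_zero n)
  X_mul := fun n i j i' j' => Subtype.ext (X0_mul n i j i' j')
  comm := fun n x hx i j => Subtype.ext (D0_comm n hx i j)
  proper := fun n h => not_good_one n (good_closure n h)
  two := by
    intro h
    have h1 : ((2 : K) : HahnSeries G M) = 0 := congrArg Subtype.val h
    have h2 : lam (((2 : K) : HahnSeries G M).coeff 0) = 0 := by
      rw [h1, HahnSeries.coeff_zero, map_zero]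
    have h3 : ((2 : K) : HahnSeries G M) = 1 + 1 := by
      have : (2 : K) = 1 + 1 := one_add_one_eq_two.symm
      rw [this]
      rfl
    rw [h3, HahnSeries.coeff_add, HahnSeries.coeff_one, if_pos rfl, map_add, ← w_zero, lam_w] at h2
    norm_num at h2

end Pool.Agent.Lib.MP_701827_al
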