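import Mathlib

set_option autoImplicit false

namespace Pool.Agent.Lib.MP_701827_al

open Filter Topology

/-- The sign `(-1)^j` as an integer. -/
def sg (j : ℤ) : ℤ := ((Int.negOnePow j : ℤˣ) : ℤ)

theorem sg_add (a b : ℤ) : sg (a + b) = sg a * sg b := by
  unfold sg
  rw [Int.negOnePow_add]
  push_cast
  rfl

theorem sg_zero : sg 0 = 1 := by
  simp [sg]

theorem sg_one : sg 1 = -1 := by
  simp [sg]

theorem sg_neg (a : ℤ) : sg (-a) = sg a := by
  unfold sg
  rw [Int.negOnePow_neg]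

theorem sg_sq (a : ℤ) : sg a * sg a = 1 := by
  have h1 : sg (a + -a) = 1 := by rw [add_neg_cancel, sg_zero]
  rw [sg_add, sg_neg] at h1
  exact h1

/-- The algebraic data of the counterexample. -/
structure Tower (K : Type) [DivisionRing K] where
  /-- an increasing chain of division subrings -/
  D : ℕ → Subring K
  mono : Monotone D
  inv_mem : ∀ (n : ℕ) (x : K), x ∈ D n → x⁻¹ ∈ D n
  exhaust : ∀ x : K, ∃ n, x ∈ D n
  /-- the monomials `u_n^i v_n^j` -/
  X : ℕ → ℤ → ℤ → K
  X_mem : ∀ (n : ℕ) (i j : ℤ), X n i j ∈ D (n + 1)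
  X_zero : ∀ n : ℕ, X n 0 0 = 1
  X_mul : ∀ (n : ℕ) (i j i' j' : ℤ), X n i j * X n i' j' = sg (j * i') • X n (i + i') (j + j')
  comm : ∀ (n : ℕ) (x : K), x ∈ D n → ∀ i j : ℤ, x * X n i j = X n i j * x
  proper : ∀ n : ℕ, (1 : K) ∉ AddSubgroup.closure
    {x : K | ∃ d ∈ D n, ∃ i j : ℤ, x = d * (X n i j - sg j • X n (i + 1) j)}
  two : (2 : K) ≠ 0

namespace Tower

variable {K : Type} [DivisionRing K] (T : Tower K)

/-- The basic elements `(1 - (-1)^j u) u^i v^j`. -/
def g (n : ℕ) (i j : ℤ) : K := T.X n i j - sg j • T.X n (i + 1) j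

theorem g_mul (n : ℕ) (i j i' j' : ℤ) : T.g n i j * T.g n i' j'
    = sg (j * i') • (T.g n (i + i') (j + j') - sg j • T.g n (i + i' + 1) (j + j')) := by
  unfold g
  have h1 : sg (j * (i' + 1)) = sg (j * i') * sg j := by
    rw [mul_add, mul_one, sg_add]
  have h2 := sg_add j j'
  have h3 := sg_sq j
  have e1 : i + 1 + i' = i + i' + 1 := by ring
  have e2 : i + (i' + 1) = i + i' + 1 := by ring
  have e3 : i + 1 + (i' + 1) = i + i' + 1 + 1 := by ring
  simp only [sub_mul, mul_sub, smul_mul_assoc, mul_smul_comm, T.X_mul, h1, h2, e1, e2, e3]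
  have h4 : sg (j * i') * sg j * (sg j * sg j') = sg (j * i') * sg j' := by
    linear_combination (sg (j * i') * sg j') * h3
  simp only [smul_sub, smul_smul]
  have h5 : sg j' * (sg j * (sg (j * i') * sg j)) = sg (j * i') * (sg j * (sg j * sg j')) := by ring
  rw [h5]
  module

/-- The additive subgroup `I_n`. -/
def I (n : ℕ) : AddSubgroup K :=
  AddSubgroup.closure {x : K | ∃ d ∈ T.D n, ∃ i j : ℤ, x = d * T.g n i j}

theorem gen_mem (n : ℕ) {d : K} (hd : d ∈ T.D n) (i j : ℤ) : d * T.g n i j ∈ T.I n :=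
  AddSubgroup.subset_closure ⟨d, hd, i, j, rfl⟩

theorem g_mem (n : ℕ) (i j : ℤ) : T.g n i j ∈ T.I n := by
  have := T.gen_mem n (T.D n).one_mem i j
  rwa [one_mul] at this

theorem g_mem_D (n : ℕ) (i j : ℤ) : T.g n i j ∈ T.D (n + 1) := by
  unfold g
  exact (T.D (n + 1)).sub_mem (T.X_mem n i j) ((T.D (n + 1)).zsmul_mem (T.X_mem n (i + 1) j) _)

theorem I_le (n : ℕ) {x : K} (hx : x ∈ T.I n) : x ∈ T.D (n + 1) := by
  induction hx using AddSubgroup.closure_induction with
  | mem x hx =>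
    obtain ⟨d, hd, i, j, rfl⟩ := hx
    exact (T.D (n + 1)).mul_mem (T.mono (Nat.le_succ n) hd) (T.g_mem_D n i j)
  | zero => exact (T.D (n + 1)).zero_mem
  | add x y _ _ hx hy => exact (T.D (n + 1)).add_mem hx hy
  | neg x _ hx => exact (T.D (n + 1)).neg_mem hx

theorem g_comm (n : ℕ) {x : K} (hx : x ∈ T.D n) (i j : ℤ) : x * T.g n i j = T.g n i j * x := by
  unfold g
  rw [mul_sub, sub_mul, smul_mul_assoc, mul_smul_comm, T.comm n x hx, T.comm n x hx]

theorem I_mul_left (n : ℕ) {a x : K} (ha : a ∈ T.D n) (hx : x ∈ T.I n) : a * x ∈ T.I n := by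
  induction hx using AddSubgroup.closure_induction with
  | mem x hx =>
    obtain ⟨d, hd, i, j, rfl⟩ := hx
    rw [← mul_assoc]
    exact T.gen_mem n ((T.D n).mul_mem ha hd) i j
  | zero => rw [mul_zero]; exact (T.I n).zero_mem
  | add x y _ _ hx hy => rw [mul_add]; exact (T.I n).add_mem hx hy
  | neg x _ hx => rw [mul_neg]; exact (T.I n).neg_mem hx

theorem I_mul_right (n : ℕ) {a x : K} (ha : a ∈ T.D n) (hx : x ∈ T.I n) : x * a ∈ T.I n := by
  induction hx using AddSubgroup.closure_induction with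
  | mem x hx =>
    obtain ⟨d, hd, i, j, rfl⟩ := hx
    rw [mul_assoc, ← T.g_comm n ha, ← mul_assoc]
    exact T.gen_mem n ((T.D n).mul_mem hd ha) i j
  | zero => rw [zero_mul]; exact (T.I n).zero_mem
  | add x y _ _ hx hy => rw [add_mul]; exact (T.I n).add_mem hx hy
  | neg x _ hx => rw [neg_mul]; exact (T.I n).neg_mem hx

theorem I_mul_gen (n : ℕ) {x d : K} (hx : x ∈ T.I n) (hd : d ∈ T.D n) (i j : ℤ) :
    x * (d * T.g n i j) ∈ T.I n := by
  induction hx using AddSubgroup.closure_induction with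
  | mem x hx =>
    obtain ⟨d', hd', i', j', rfl⟩ := hx
    have e : d' * T.g n i' j' * (d * T.g n i j) = (d' * d) * (T.g n i' j' * T.g n i j) := by
      rw [mul_assoc d', ← mul_assoc (T.g n i' j'), ← T.g_comm n hd, mul_assoc, mul_assoc]
    rw [e, T.g_mul]
    apply T.I_mul_left n ((T.D n).mul_mem hd' hd)
    apply (T.I n).zsmul_mem
    exact (T.I n).sub_mem (T.g_mem n _ _) ((T.I n).zsmul_mem (T.g_mem n _ _) _)
  | zero => rw [zero_mul]; exact (T.I n).zero_mem
  | add x y _ _ hx hy => rw [add_mul]; exact (T.I n).add_mem hx hy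
  | neg x _ hx => rw [neg_mul]; exact (T.I n).neg_mem hx

theorem I_mul (n : ℕ) {x y : K} (hx : x ∈ T.I n) (hy : y ∈ T.I n) : x * y ∈ T.I n := by
  induction hy using AddSubgroup.closure_induction with
  | mem y hy =>
    obtain ⟨d, hd, i, j, rfl⟩ := hy
    exact T.I_mul_gen n hx hd i j
  | zero => rw [mul_zero]; exact (T.I n).zero_mem
  | add y z _ _ hy hz => rw [mul_add]; exact (T.I n).add_mem hy hz
  | neg y _ hy => rw [mul_neg]; exact (T.I n).neg_mem hy

theorem one_notMem (n : ℕ) : (1 : K) ∉ T.I n := T.proper n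

theorem I_inter (n : ℕ) {x : K} (hx : x ∈ T.I n) (hx' : x ∈ T.D n) : x = 0 := by
  by_contra h
  apply T.one_notMem n
  have := T.I_mul_left n (T.inv_mem n x hx') hx
  rwa [inv_mul_cancel₀ h] at this

/-- The basic neighbourhoods of zero. -/
def U (N : ℕ) : AddSubgroup K := AddSubgroup.closure {x : K | ∃ n, N ≤ n ∧ x ∈ T.I n}

theorem I_le_U {n N : ℕ} (h : N ≤ n) {x : K} (hx : x ∈ T.I n) : x ∈ T.U N :=
  AddSubgroup.subset_closure ⟨n, h, hx⟩

theorem U_anti {M N : ℕ} (h : M ≤ N) : T.U N ≤ T.U M := by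
  apply AddSubgroup.closure_mono
  rintro x ⟨n, hn, hx⟩
  exact ⟨n, h.trans hn, hx⟩

theorem U_mul_left (N : ℕ) {a x : K} (ha : a ∈ T.D N) (hx : x ∈ T.U N) : a * x ∈ T.U N := by
  induction hx using AddSubgroup.closure_induction with
  | mem x hx =>
    obtain ⟨n, hn, hx⟩ := hx
    exact T.I_le_U hn (T.I_mul_left n (T.mono hn ha) hx)
  | zero => rw [mul_zero]; exact (T.U N).zero_mem
  | add x y _ _ hx hy => rw [mul_add]; exact (T.U N).add_mem hx hy
  | neg x _ hx => rw [mul_neg]; exact (T.U N).neg_mem hx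

theorem U_mul_right (N : ℕ) {a x : K} (ha : a ∈ T.D N) (hx : x ∈ T.U N) : x * a ∈ T.U N := by
  induction hx using AddSubgroup.closure_induction with
  | mem x hx =>
    obtain ⟨n, hn, hx⟩ := hx
    exact T.I_le_U hn (T.I_mul_right n (T.mono hn ha) hx)
  | zero => rw [zero_mul]; exact (T.U N).zero_mem
  | add x y _ _ hx hy => rw [add_mul]; exact (T.U N).add_mem hx hy
  | neg x _ hx => rw [neg_mul]; exact (T.U N).neg_mem hx

theorem U_mul_I (N n : ℕ) (hn : N ≤ n) {x y : K} (hx : x ∈ T.U N) (hy : y ∈ T.I n) :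
    x * y ∈ T.U N := by
  induction hx using AddSubgroup.closure_induction with
  | mem x hx =>
    obtain ⟨m, hm, hx⟩ := hx
    rcases lt_trichotomy m n with h | h | h
    · exact T.I_le_U hn (T.I_mul_left n (T.mono h (T.I_le m hx)) hy)
    · subst h
      exact T.I_le_U hn (T.I_mul m hx hy)
    · exact T.I_le_U hm (T.I_mul_right m (T.mono h (T.I_le n hy)) hx)
  | zero => rw [zero_mul]; exact (T.U N).zero_mem
  | add x y _ _ hx hy => rw [add_mul]; exact (T.U N).add_mem hx hy
  | neg x _ hx => rw [neg_mul]; exact (T.U N).neg_mem hx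

theorem U_mul (N : ℕ) {x y : K} (hx : x ∈ T.U N) (hy : y ∈ T.U N) : x * y ∈ T.U N := by
  induction hy using AddSubgroup.closure_induction with
  | mem y hy =>
    obtain ⟨n, hn, hy⟩ := hy
    exact T.U_mul_I N n hn hx hy
  | zero => rw [mul_zero]; exact (T.U N).zero_mem
  | add y z _ _ hy hz => rw [mul_add]; exact (T.U N).add_mem hy hz
  | neg y _ hy => rw [mul_neg]; exact (T.U N).neg_mem hy

/-- Finite stages of `U N`. -/
def V (N : ℕ) : ℕ → AddSubgroup K
  | 0 => ⊥
  | k + 1 => V N k ⊔ T.I (N + k)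

theorem V_mono (N : ℕ) : Monotone (T.V N) :=
  monotone_nat_of_le_succ (fun _ => le_sup_left)

theorem V_le (N k : ℕ) {x : K} (hx : x ∈ T.V N k) : x ∈ T.D (N + k) := by
  induction k generalizing x with
  | zero =>
    have : x = 0 := (AddSubgroup.mem_bot).mp hx
    rw [this]; exact (T.D _).zero_mem
  | succ k ih =>
    obtain ⟨y, hy, z, hz, rfl⟩ := AddSubgroup.mem_sup.mp hx
    exact (T.D (N + (k + 1))).add_mem (T.mono (by omega) (ih hy)) (T.I_le (N + k) hz)

theorem mem_V_of_mem_U (N : ℕ) {x : K} (hx : x ∈ T.U N) : ∃ k, x ∈ T.V N k := by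
  induction hx using AddSubgroup.closure_induction with
  | mem x hx =>
    obtain ⟨n, hn, hx⟩ := hx
    refine ⟨n - N + 1, ?_⟩
    have : T.I n ≤ T.V N (n - N + 1) := by
      have e : n = N + (n - N) := by omega
      conv_lhs => rw [e]
      exact le_sup_right
    exact this hx
  | zero => exact ⟨0, AddSubgroup.zero_mem _⟩
  | add x y _ _ hx hy =>
    obtain ⟨k, hk⟩ := hx
    obtain ⟨l, hl⟩ := hy
    exact ⟨max k l, (T.V N _).add_mem (T.V_mono N (le_max_left k l) hk)
      (T.V_mono N (le_max_right k l) hl)⟩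
  | neg x _ hx =>
    obtain ⟨k, hk⟩ := hx
    exact ⟨k, (T.V N k).neg_mem hk⟩

theorem V_inter (N k : ℕ) {x : K} (hx : x ∈ T.V N k) (hx' : x ∈ T.D N) : x = 0 := by
  induction k generalizing x with
  | zero => exact (AddSubgroup.mem_bot).mp hx
  | succ k ih =>
    obtain ⟨y, hy, z, hz, rfl⟩ := AddSubgroup.mem_sup.mp hx
    have h1 : z ∈ T.D (N + k) := by
      have := (T.D (N + k)).sub_mem (T.mono (Nat.le_add_right N k) hx') (T.V_le N k hy)
      rwa [add_sub_cancel_left] at this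
    have h2 := T.I_inter (N + k) hz h1
    subst h2
    rw [add_zero] at hx' ⊢
    exact ih hy hx'

theorem U_inter (N : ℕ) {x : K} (hx : x ∈ T.U N) (hx' : x ∈ T.D N) : x = 0 := by
  obtain ⟨k, hk⟩ := T.mem_V_of_mem_U N hx
  exact T.V_inter N k hk hx'

theorem basis : RingSubgroupsBasis T.U where
  inter i j := ⟨max i j, le_inf (T.U_anti (le_max_left i j)) (T.U_anti (le_max_right i j))⟩
  mul i := ⟨i, by
    rintro _ ⟨x, hx, y, hy, rfl⟩
    exact T.U_mul i hx hy⟩
  leftMul x i := by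
    obtain ⟨m, hm⟩ := T.exhaust x
    refine ⟨max i m, fun y hy => ?_⟩
    have h1 := T.U_mul_left (max i m) (T.mono (le_max_right i m) hm) hy
    exact T.U_anti (le_max_left i m) h1
  rightMul x i := by
    obtain ⟨m, hm⟩ := T.exhaust x
    refine ⟨max i m, fun y hy => ?_⟩
    have h1 := T.U_mul_right (max i m) (T.mono (le_max_right i m) hm) hy
    exact T.U_anti (le_max_left i m) h1

/-- The ring topology with basis `U N` at zero. -/
@[instance_reducible] def top : TopologicalSpace K := T.basis.topology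

theorem isRing : @IsTopologicalRing K T.top _ :=
  T.basis.toRingFilterBasis.isTopologicalRing

theorem nhds_basis : HasBasis (@nhds K T.top 0) (fun _ => True) fun i => (T.U i : Set K) :=
  T.basis.hasBasis_nhds_zero

theorem isT2 : @T2Space K T.top := by
  let _ := T.top
  have := T.isRing
  apply IsTopologicalAddGroup.t2Space_of_zero_sep
  intro x hx
  obtain ⟨m, hm⟩ := T.exhaust x
  refine ⟨T.U m, T.nhds_basis.mem_of_mem trivial, fun h => hx (T.U_inter m h hm)⟩

theorem tendsto_zero (s : ℕ → K) (hs : ∀ n, s n ∈ T.I n) :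
    Tendsto s atTop (@nhds K T.top 0) := by
  rw [T.nhds_basis.tendsto_right_iff]
  intro N _
  filter_upwards [eventually_ge_atTop N] with n hn
  exact T.I_le_U hn (hs n)

/-- No coarser Hausdorff ring topology has continuous inversion. -/
theorem no_coarser (σ : TopologicalSpace K) (hle : T.top ≤ σ) (hring : @IsTopologicalRing K σ _)
    (hT2 : @T2Space K σ) (hinv : ∀ x : K, x ≠ 0 → @ContinuousAt K K σ σ (fun y => y⁻¹) x) :
    False := by
  let _ := σ
  have hz : ∀ s : ℕ → K, (∀ n, s n ∈ T.I n) → Tendsto s atTop (𝓝 0) := fun s hs =>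
    (T.tendsto_zero s hs).mono_right (nhds_mono hle)
  have h1 : Tendsto (fun n => T.g n 0 0) atTop (𝓝 0) := hz _ (fun n => T.g_mem n 0 0)
  have h2 : Tendsto (fun n => T.g n 0 1) atTop (𝓝 0) := hz _ (fun n => T.g_mem n 0 1)
  have h3 : Tendsto (fun n => T.g n 0 (-1)) atTop (𝓝 0) := hz _ (fun n => T.g_mem n 0 (-1))
  -- w n = 1 + u_n tends to 2
  set w : ℕ → K := fun n => 1 + T.X n 1 0 with hw
  have hw1 : w = fun n => 2 - T.g n 0 0 := by
    funext n
    simp only [hw, g, sg_zero, T.X_zero, zero_add, one_smul]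
    rw [← one_add_one_eq_two]
    abel
  have hw2 : Tendsto w atTop (𝓝 2) := by
    rw [hw1]
    have := (tendsto_const_nhds (x := (2 : K)) (f := atTop)).sub h1
    rwa [sub_zero] at this
  have hw3 : Tendsto (fun n => (w n)⁻¹) atTop (𝓝 (2 : K)⁻¹) :=
    (hinv 2 T.two).tendsto.comp hw2
  have hw4 : ∀ᶠ n in atTop, w n ≠ 0 := hw2.eventually_ne T.two
  have e2 : ∀ n, w n * T.X n 0 1 = T.g n 0 1 := by
    intro n
    simp only [hw, g, add_mul, one_mul, T.X_mul, sg_one, mul_zero, sg_zero, add_zero,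
      zero_add, one_smul, neg_smul]
    abel
  have e3 : ∀ n, w n * T.X n 0 (-1) = T.g n 0 (-1) := by
    intro n
    simp only [hw, g, add_mul, one_mul, T.X_mul, sg_neg, sg_one, mul_zero, sg_zero,
      add_zero, zero_add, one_smul, neg_smul]
    abel
  have h4 : Tendsto (fun n => T.X n 0 1) atTop (𝓝 0) := by
    have := hw3.mul h2
    rw [mul_zero] at this
    refine this.congr' ?_
    filter_upwards [hw4] with n hn
    rw [← e2, ← mul_assoc, inv_mul_cancel₀ hn, one_mul]
  have h5 : Tendsto (fun n => T.X n 0 (-1)) atTop (𝓝 0) := by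
    have := hw3.mul h3
    rw [mul_zero] at this
    refine this.congr' ?_
    filter_upwards [hw4] with n hn
    rw [← e3, ← mul_assoc, inv_mul_cancel₀ hn, one_mul]
  have h6 : Tendsto (fun _ : ℕ => (1 : K)) atTop (𝓝 0) := by
    have := h4.mul h5
    rw [mul_zero] at this
    refine this.congr (fun n => ?_)
    rw [T.X_mul]
    simp [sg_zero, T.X_zero]
  have h7 := tendsto_nhds_unique h6 tendsto_const_nhds
  exact one_ne_zero h7.symm

end Tower

end Pool.Agent.Lib.MP_701827_al
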